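import Mathlib
import Pool.Agent.Helper2.PackAPD

set_option autoImplicit false

namespace Pool.Agent.Results.MP_0e9c37_co.NotOneSixth

open Filter Topology

/-- `B n d = {d, 2d, …, nd}`, the set of the first `n` positive multiples of `d`. -/
def B (n d : ℕ) : Set ℤ := {x | ∃ k : ℕ, 1 ≤ k ∧ k ≤ n ∧ x = (k : ℤ) * d}

/-- The sets `B n 1, …, B n n` pack into `{1, …, m}`: there are integer shifts `s 1, …, s n` such
that the shifted sets `s d + B n d` all lie in `{1, …, m}` and are pairwise disjoint. -/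
def Packs (n m : ℕ) : Prop :=
  ∃ s : ℕ → ℤ,
    (∀ d, 1 ≤ d → d ≤ n → ∀ x ∈ B n d, 1 ≤ s d + x ∧ s d + x ≤ m) ∧
    (∀ d e, 1 ≤ d → d ≤ n → 1 ≤ e → e ≤ n → d ≠ e →
      ∀ x ∈ B n d, ∀ y ∈ B n e, s d + x ≠ s e + y)

/-- `M n` is the least `m` such that `B n 1, …, B n n` pack into `{1, …, m}`. -/
noncomputable def M (n : ℕ) : ℕ := sInf {m | Packs n m}

/-- Some packing exists, so that `M n` is attained. -/
theorem packs_cube (n : ℕ) : Packs n (n * n * n) := by
  refine ⟨fun d => ((d : ℤ) - 1) * (n * n), ?_, ?_⟩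
  · rintro d hd1 hdn x ⟨k, hk1, hkn, rfl⟩
    have h1 : (1 : ℤ) ≤ d := by exact_mod_cast hd1
    have h2 : (d : ℤ) ≤ n := by exact_mod_cast hdn
    have h3 : (1 : ℤ) ≤ k := by exact_mod_cast hk1
    have h4 : (k : ℤ) ≤ n := by exact_mod_cast hkn
    have h5 : (k : ℤ) * d ≤ n * n := mul_le_mul h4 h2 (by omega) (by omega)
    have h6 : (1 : ℤ) ≤ k * d := by nlinarith
    have h7 : (0 : ℤ) ≤ ((d : ℤ) - 1) * (n * n) := mul_nonneg (by omega) (by positivity)
    have h8 : ((d : ℤ) - 1) * (n * n) ≤ (n - 1) * (n * n) :=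
      mul_le_mul_of_nonneg_right (by omega) (by positivity)
    constructor
    · simp only; linarith
    · simp only; push_cast; nlinarith
  · rintro d e hd1 hdn he1 hen hde x ⟨k, hk1, hkn, rfl⟩ y ⟨l, hl1, hln, rfl⟩
    have h1 : (1 : ℤ) ≤ d := by exact_mod_cast hd1
    have h2 : (d : ℤ) ≤ n := by exact_mod_cast hdn
    have h3 : (1 : ℤ) ≤ k := by exact_mod_cast hk1
    have h4 : (k : ℤ) ≤ n := by exact_mod_cast hkn
    have h1' : (1 : ℤ) ≤ e := by exact_mod_cast he1
    have h2' : (e : ℤ) ≤ n := by exact_mod_cast hen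
    have h3' : (1 : ℤ) ≤ l := by exact_mod_cast hl1
    have h4' : (l : ℤ) ≤ n := by exact_mod_cast hln
    have h5 : (k : ℤ) * d ≤ n * n := mul_le_mul h4 h2 (by omega) (by omega)
    have h6 : (1 : ℤ) ≤ k * d := by nlinarith
    have h5' : (l : ℤ) * e ≤ n * n := mul_le_mul h4' h2' (by omega) (by omega)
    have h6' : (1 : ℤ) ≤ l * e := by nlinarith
    have hnn : (0 : ℤ) ≤ (n : ℤ) * n := by positivity
    simp only
    rcases lt_or_gt_of_ne hde with h | h
    · have h7 : (d : ℤ) ≤ e - 1 := by omega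
      have h8 : (d : ℤ) * (n * n) ≤ (e - 1) * (n * n) := mul_le_mul_of_nonneg_right h7 hnn
      intro h9
      nlinarith
    · have h7 : (e : ℤ) ≤ d - 1 := by omega
      have h8 : (e : ℤ) * (n * n) ≤ (d - 1) * (n * n) := mul_le_mul_of_nonneg_right h7 hnn
      intro h9
      nlinarith

theorem packs_M (n : ℕ) : Packs n (M n) := by
  have h : {m | Packs n m}.Nonempty := ⟨_, packs_cube n⟩
  exact Nat.sInf_mem h

open Pool.Agent.Helper2.PackAP in
/-- `W n ≤ 2 M n`. -/
theorem W_le (n : ℕ) : W n ≤ 2 * (M n : ℝ) := by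
  obtain ⟨s, hin, hdis⟩ := packs_M n
  have h := comb_bound n (M n) s
    (by
      intro d hd1 hdn k hk1 hkn
      obtain ⟨k', rfl⟩ := Int.eq_ofNat_of_zero_le (by omega : 0 ≤ k)
      exact hin d hd1 hdn _ ⟨k', by omega, by omega, rfl⟩)
    (by
      intro d e hd1 hdn he1 hen hde k l hk1 hkn hl1 hln
      obtain ⟨k', rfl⟩ := Int.eq_ofNat_of_zero_le (by omega : 0 ≤ k)
      obtain ⟨l', rfl⟩ := Int.eq_ofNat_of_zero_le (by omega : 0 ≤ l)
      exact hdis d e hd1 hdn he1 hen hde _ ⟨k', by omega, by omega, rfl⟩ _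
        ⟨l', by omega, by omega, rfl⟩)
  have h2 : (((∑ p ∈ oddPrimes n, (2 * ((p : ℤ) * (n - p)) +
      if 3 * p ≤ n then (p : ℤ) * (n - 3 * p) else 0)) : ℤ) : ℝ) ≤ ((2 * (M n : ℤ) : ℤ) : ℝ) := by
    exact_mod_cast h
  refine le_trans (le_of_eq ?_) (le_trans h2 (le_of_eq (by push_cast; ring)))
  unfold W
  push_cast
  rfl

open Pool.Agent.Helper2.PackAP in
theorem limsup_ge (c : ℝ) (hc : c < 19 / 108) :
    ∃ᶠ n : ℕ in atTop, c * ((n : ℝ) ^ 3 / Real.log n) ≤ M n := by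
  by_contra hcon
  rw [Filter.not_frequently] at hcon
  obtain ⟨N, hN⟩ := Filter.eventually_atTop.1 hcon
  obtain ⟨C, hC⟩ := averaged
  -- `c` is positive
  have hlogpos : ∀ n : ℕ, 2 ≤ n → 0 < Real.log n := fun n hn =>
    Real.log_pos (by exact_mod_cast (by omega : 1 < n))
  have hc0 : 0 < c := by
    have h1 := hN (N + 2) (by omega)
    push Not at h1
    have h2 : (0 : ℝ) ≤ M (N + 2) := by positivity
    have h3 : (0 : ℝ) < ((N + 2 : ℕ) : ℝ) ^ 3 / Real.log (N + 2 : ℕ) :=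
      div_pos (by positivity) (hlogpos _ (by omega))
    by_contra h4
    push Not at h4
    have h5 : c * (((N + 2 : ℕ) : ℝ) ^ 3 / Real.log (N + 2 : ℕ)) ≤ 0 :=
      mul_nonpos_of_nonpos_of_nonneg h4 h3.le
    linarith
  -- upper bound for each term
  set K := ∑ n ∈ Finset.range (N + 2), W n * (Real.log n / (n : ℝ) ^ 4) with hK
  have hterm : ∀ n : ℕ, N + 2 ≤ n → W n * (Real.log n / (n : ℝ) ^ 4) ≤ 2 * c * (1 / n) := by
    intro n hn
    have h1 := hN n (by omega)
    push Not at h1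
    have hn0 : (0 : ℝ) < n := by exact_mod_cast (by omega : 0 < n)
    have hl := hlogpos n (by omega)
    have h2 := W_le n
    have h3 : W n ≤ 2 * (c * ((n : ℝ) ^ 3 / Real.log n)) := by linarith
    have h4 : 0 ≤ Real.log n / (n : ℝ) ^ 4 := by positivity
    calc W n * (Real.log n / (n : ℝ) ^ 4)
        ≤ 2 * (c * ((n : ℝ) ^ 3 / Real.log n)) * (Real.log n / (n : ℝ) ^ 4) :=
          mul_le_mul_of_nonneg_right h3 h4
      _ = 2 * c * (1 / n) := by
          field_simp
  have hnn : ∀ n : ℕ, 0 ≤ W n * (Real.log n / (n : ℝ) ^ 4) := fun n =>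
    mul_nonneg (W_nonneg n) (div_nonneg (Real.log_natCast_nonneg n) (by positivity))
  have hupper : ∀ X : ℕ, 1 ≤ X → ∑ n ∈ Finset.Icc 1 X, W n * (Real.log n / (n : ℝ) ^ 4)
      ≤ K + 2 * c * (1 + Real.log X) := by
    intro X hX
    have h1 : ∑ n ∈ Finset.Icc 1 X, W n * (Real.log n / (n : ℝ) ^ 4)
        ≤ ∑ n ∈ Finset.Icc 1 X, ((if n < N + 2 then W n * (Real.log n / (n : ℝ) ^ 4) else 0)
            + 2 * c * (1 / n)) := by
      apply Finset.sum_le_sum
      intro n hn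
      rw [Finset.mem_Icc] at hn
      have hn0 : (0 : ℝ) < n := by exact_mod_cast (by omega : 0 < n)
      by_cases h : n < N + 2
      · simp only [h, if_true]
        have : 0 ≤ 2 * c * (1 / (n : ℝ)) := by positivity
        linarith
      · simp only [h, if_false]
        have := hterm n (by omega)
        linarith
    refine le_trans h1 ?_
    rw [Finset.sum_add_distrib, ← Finset.sum_filter, ← Finset.mul_sum]
    have h2 : ∑ n ∈ (Finset.Icc 1 X).filter (fun n => n < N + 2),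
        W n * (Real.log n / (n : ℝ) ^ 4) ≤ K := by
      apply Finset.sum_le_sum_of_subset_of_nonneg
      · intro n hn
        rw [Finset.mem_filter] at hn
        exact Finset.mem_range.2 hn.2
      · intro n _ _
        exact hnn n
    have h3 : ∑ n ∈ Finset.Icc 1 X, (1 : ℝ) / n ≤ 1 + Real.log X := by
      have := harmonic_le_one_add_log X
      rw [harmonic_eq_sum_Icc] at this
      push_cast at this
      simpa [one_div] using this
    have h4 : 2 * c * ∑ n ∈ Finset.Icc 1 X, (1 : ℝ) / n ≤ 2 * c * (1 + Real.log X) :=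
      mul_le_mul_of_nonneg_left h3 (by linarith)
    linarith
  -- contradiction for large `Y`
  have hfin : ∀ Y : ℕ, 1 ≤ Y → (19 / 54 - 2 * c) * Real.log (3 * Y : ℕ) ≤ K + 2 * c + C := by
    intro Y hY
    have h1 := hC Y hY
    have h2 := hupper (3 * Y) (by omega)
    linarith
  have htend : Tendsto (fun Y : ℕ => (19 / 54 - 2 * c) * Real.log (3 * Y : ℕ)) atTop atTop := by
    apply Tendsto.const_mul_atTop (by linarith)
    apply Real.tendsto_log_atTop.comp
    apply tendsto_natCast_atTop_atTop.comp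
    exact Filter.tendsto_id.const_mul_atTop' (by norm_num : 0 < 3)
  obtain ⟨Y, hY1, hY2⟩ := ((htend.eventually_gt_atTop (K + 2 * c + C)).and
    (Filter.eventually_ge_atTop 1)).exists
  exact absurd (hfin Y hY2) (not_le.2 hY1)

/-- `limsup M(n) ln n / n³ ≥ 19/108 > 1/6`; in particular `M(n) ~ n³ / (6 ln n)` is false. -/
theorem result :
    (∀ c : ℝ, c < 19 / 108 → ∃ᶠ n : ℕ in atTop, c * ((n : ℝ) ^ 3 / Real.log n) ≤ M n) ∧
    ¬ Tendsto (fun n : ℕ => (M n : ℝ) / ((1 / 6) * ((n : ℝ) ^ 3 / Real.log n))) atTop (𝓝 1) := by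
  refine ⟨limsup_ge, ?_⟩
  intro h
  have h1 : ∀ᶠ n : ℕ in atTop, (M n : ℝ) / ((1 / 6) * ((n : ℝ) ^ 3 / Real.log n)) < 1.02 :=
    h.eventually (gt_mem_nhds (by norm_num))
  have h2 := limsup_ge 0.175 (by norm_num)
  obtain ⟨n, hn1, hn2, hn3⟩ := (h2.and_eventually (h1.and (Filter.eventually_ge_atTop 2))).exists
  have hn0 : (0 : ℝ) < n := by exact_mod_cast (by omega : 0 < n)
  have hl : 0 < Real.log n := Real.log_pos (by exact_mod_cast (by omega : 1 < n))
  have h3 : 0 < (n : ℝ) ^ 3 / Real.log n := by positivity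
  rw [div_lt_iff₀ (by positivity)] at hn2
  nlinarith

end Pool.Agent.Results.MP_0e9c37_co.NotOneSixth
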